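import Pool.Agent.TH231.DFM.Stmts

/-!
The image of the standard Gaussian measure under a linear map with orthonormal rows.
-/

set_option autoImplicit false

open MeasureTheory ProbabilityTheory Filter Topology

namespace Pool.TH347.DFM

open Pool.TH231.DFM WithLp

theorem charFun_gam (ι : Type) [Fintype ι] (s : EuclideanSpace ℝ ι) :
    charFun ((gam ι).map (toLp 2)) s = Complex.exp (- (‖s‖ : ℂ) ^ 2 / 2) := by
  unfold gam
  rw [map_pi_eq_stdGaussian, charFun_stdGaussian]

theorem t_LAW : St_LAW := by
  intro κ κ' _ _ _ A hA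
  have hT : Measurable (fun (g : κ → ℝ) (i : κ') => ip (A i) g) := by
    unfold ip
    fun_prop
  refine ⟨hT, ?_⟩
  apply (MeasurableEquiv.toLp 2 (κ' → ℝ)).map_measurableEquiv_injective
  have : IsProbabilityMeasure (gam κ) := by unfold gam; infer_instance
  have : IsProbabilityMeasure (gam κ') := by unfold gam; infer_instance
  have : IsProbabilityMeasure ((gam κ).map (fun (g : κ → ℝ) (i : κ') => ip (A i) g)) :=
    Measure.isProbabilityMeasure_map hT.aemeasurable
  have : IsFiniteMeasure (((gam κ).map (fun (g : κ → ℝ) (i : κ') => ip (A i) g)).map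
      (MeasurableEquiv.toLp 2 (κ' → ℝ))) := inferInstance
  apply Measure.ext_of_charFun (E := EuclideanSpace ℝ κ')
  funext t
  have h1 : charFun (((gam κ).map (fun (g : κ → ℝ) (i : κ') => ip (A i) g)).map
      (MeasurableEquiv.toLp 2 (κ' → ℝ))) t =
      charFun ((gam κ).map (toLp 2)) (toLp 2 (fun c : κ => ∑ i, A i c * t i)) := by
    rw [charFun_apply, charFun_apply, Measure.map_map (MeasurableEquiv.measurable _) hT,
      integral_map ((MeasurableEquiv.measurable _).comp hT).aemeasurable
        (Measurable.aestronglyMeasurable (by fun_prop)),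
      integral_map (Measurable.aemeasurable (by fun_prop))
        (Measurable.aestronglyMeasurable (by fun_prop))]
    refine integral_congr_ae (Eventually.of_forall fun g => ?_)
    have h2 : inner ℝ (toLp 2 (fun i : κ' => ip (A i) g)) t =
        inner ℝ (toLp 2 g) (toLp 2 (fun c : κ => ∑ i, A i c * t i)) := by
      simp only [PiLp.inner_apply, ip, RCLike.inner_apply, conj_trivial]
      simp_rw [Finset.mul_sum, Finset.sum_mul]
      rw [Finset.sum_comm]
      refine Finset.sum_congr rfl fun c _ => Finset.sum_congr rfl fun i _ => ?_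
      ring
    simp only [Function.comp_apply, MeasurableEquiv.coe_toLp]
    rw [h2]
  have h3 : ‖(toLp 2 (fun c : κ => ∑ i, A i c * t i) : EuclideanSpace ℝ κ)‖ ^ 2 = ‖t‖ ^ 2 := by
    rw [EuclideanSpace.real_norm_sq_eq, EuclideanSpace.real_norm_sq_eq]
    have h4 : ∀ c : κ, (∑ i, A i c * t i) ^ 2 = ∑ i, ∑ j, t i * t j * (A i c * A j c) := by
      intro c
      rw [sq, Finset.sum_mul_sum]
      refine Finset.sum_congr rfl fun i _ => Finset.sum_congr rfl fun j _ => ?_
      ring
    have h5 : ∑ c, ∑ i, ∑ j, t i * t j * (A i c * A j c) =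
        ∑ i, ∑ j, t i * t j * ip (A i) (A j) := by
      rw [Finset.sum_comm]
      refine Finset.sum_congr rfl fun i _ => ?_
      rw [Finset.sum_comm]
      refine Finset.sum_congr rfl fun j _ => ?_
      rw [ip, Finset.mul_sum]
    calc ∑ c, (toLp 2 (fun c : κ => ∑ i, A i c * t i) : EuclideanSpace ℝ κ) c ^ 2
        = ∑ c, ∑ i, ∑ j, t i * t j * (A i c * A j c) :=
          Finset.sum_congr rfl fun c _ => h4 c
      _ = ∑ i, ∑ j, t i * t j * ip (A i) (A j) := h5
      _ = ∑ i, t i ^ 2 := by
          refine Finset.sum_congr rfl fun i _ => ?_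
          simp only [hA, mul_ite, mul_one, mul_zero]
          rw [Finset.sum_ite_eq]
          simp [sq]
  rw [h1, charFun_gam]
  have h6 : charFun ((gam κ').map (MeasurableEquiv.toLp 2 (κ' → ℝ))) t =
      charFun ((gam κ').map (toLp 2)) t := rfl
  rw [h6, charFun_gam]
  congr 2
  have := congrArg (fun x : ℝ => (x : ℂ)) h3
  push_cast at this
  rw [this]

end Pool.TH347.DFM
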